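import Pool.Agent.Helper65.HF.StN

/-! # HF MODULE TRH -/

set_option autoImplicit false

namespace Pool.Agent.Helper92.HF

open Pool.Agent.Helper65.HF Finset

theorem srt_mono_TRH (N c : ℕ) : srt N c ⊆ srt (N + 1) c := by
  intro l hl
  rw [mem_srt] at hl ⊢
  exact ⟨hl.1, hl.2.1, fun x hx => (hl.2.2 x hx).trans (Nat.lt_succ_self N)⟩

theorem H_lt_TRH (k : Type) [Field k] (j N r c : ℕ) (h : c < j) : H k j N r c = (N + c - 1).choose c := by
  unfold H
  rw [if_neg (by omega), Nat.sub_zero]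

theorem sum_TRH (k : Type) [Field k] (j r : ℕ) (hj : 1 ≤ j) (ν : ℕ → ℕ) (hν : ∀ s, s < j → ν s = 0)
    (St : List ℕ → Prop) (hC : ∀ N c, num (srt N c) St = H k j N r c) (a : ℕ) (G : ℕ → ℝ → ℝ)
    (hG : ∀ s, G s 0 = 0) :
    ∑ s ∈ Icc 1 a, G s (num (srt (ν s) s) St : ℝ) = ∑ s ∈ Ico j (a + 1), G s (H k j (ν s) r s : ℝ) := by
  symm
  have hsub : Ico j (a + 1) ⊆ Icc 1 a := by
    intro s hs
    rw [mem_Ico] at hs
    rw [mem_Icc]
    omega
  rw [sum_congr rfl (fun s _ => by rw [← hC (ν s) s])]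
  refine sum_subset hsub ?_
  intro s hs hs2
  rw [mem_Icc] at hs
  rw [mem_Ico] at hs2
  have hsj : s < j := by omega
  have h0 : num (srt (ν s) s) St = 0 := by
    rw [hC, hν s hsj, H_lt_TRH k j 0 r s hsj]
    exact Nat.choose_eq_zero_of_lt (by omega)
  rw [h0, Nat.cast_zero, hG]

theorem count_TRH (k : Type) [Field k] (j d M r : ℕ) (ν : ℕ → ℕ)
    (hH : ∀ s, j ≤ s → s < d → ∀ b, ν s ≤ b → b < M →
      H k j (b + 1) r s = H k j b r s + H k j (b + 1) r (s - 1))
    (St : List ℕ → Prop) (hC : ∀ N c, num (srt N c) St = H k j N r c) :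
    ∀ s, s + 1 < d → ∀ b, ν (s + 1) ≤ b → b < M →
      num (srt (b + 1) (s + 1)) St = num (srt b (s + 1)) St + num (srt (b + 1) s) St := by
  intro s hs b hb hbM
  rw [hC, hC, hC]
  by_cases hjs : j ≤ s + 1
  · have h := hH (s + 1) hjs hs b hb hbM
    simpa using h
  · push Not at hjs
    rw [H_lt_TRH k j _ r _ hjs, H_lt_TRH k j _ r _ hjs, H_lt_TRH k j _ r s (by omega)]
    have e1 : b + 1 + (s + 1) - 1 = (b + s) + 1 := by omega
    have e2 : b + (s + 1) - 1 = b + s := by omega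
    have e3 : b + 1 + s - 1 = b + s := by omega
    rw [e1, e2, e3, Nat.choose_succ_succ', add_comm]

theorem hTRH : Pool.Agent.Helper65.HF.sTRH := by
  intro hALG hTRB hTRA
  refine ⟨?_, ?_, ?_⟩
  · intro k _ _ j N r c hj
    obtain ⟨St, hU, hP, h0, hC, hN⟩ := hALG k j r hj
    rw [← hC, ← hC]
    exact num_mono_set St (srt_mono_TRH N c)
  · intro k _ _ j d M r ν hj hd hM hν hν0 hH hpos
    obtain ⟨St, hU, hP, h0, hC, hN⟩ := hALG k j r hj
    have hsum := sum_TRH k j r hj ν hν0 St hC (d - 1) (fun s x => x * (M : ℝ) ^ (d - 1 - s)) (fun s => by simp)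
    have hd1 : d - 1 + 1 = d := by omega
    rw [hd1] at hsum
    have hX : H k j M (r + 1) d ≤
        num (srt M d) (fun l => St l ∧ ¬ ∃ l', l = l' ++ List.replicate j (M - 1)) := by
      have h := hN (M - 1) d (by omega)
      have hM1 : M - 1 + 1 = M := by omega
      rw [hM1] at h
      exact h
    have key := hTRB j d M ν St hj hd hM hν hU hP h0 (count_TRH k j d M r ν hH St hC)
      (H k j M (r + 1) d) hX
    rw [hsum, hC, hC, hC, hC] at key
    exact key hpos
  · intro k _ _ j d M ν0 r ν hj hd hν hνM hν0 hH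
    obtain ⟨St, hU, hP, h0, hC, hN⟩ := hALG k j r hj
    have hsum := sum_TRH k j r hj ν hν0 St hC (d - j) (fun s x => x * (M : ℝ) ^ (d - j - s)) (fun s => by simp)
    have hsum2 := sum_TRH k j r hj ν hν0 St hC (d - 1)
      (fun s x => x * (M : ℝ) ^ (d - 1 - s) * ((d - 1).factorial : ℝ) / ((M : ℝ) - ν0) ^ (d - 1))
      (fun s => by simp)
    have hd1 : d - 1 + 1 = d := by omega
    rw [hd1] at hsum2
    have hX : H k j M (r + 1) d ≤
        num (srt M d) (fun l => St l ∧ ¬ ∃ l', l = l' ++ List.replicate j (M - 1)) := by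
      have h := hN (M - 1) d (by omega)
      have hM1 : M - 1 + 1 = M := by omega
      rw [hM1] at h
      exact h
    have key := hTRA j d M ν0 ν St hj hd hν hνM hU hP h0 (count_TRH k j d M r ν hH St hC)
      (H k j M (r + 1) d) hX
    rw [hsum, hsum2, hC, hC, hC, hC] at key
    exact key

end Pool.Agent.Helper92.HF
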